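import Pool.Agent.N303.LS.Stm4
import Pool.Agent.N492.LS.Ort
import Pool.Agent.N558.LS.MUL

/-!
# Project LT (helper303), leaf LL: local estimate for multipliers from `L²(𝕋^d)` to `L^p(𝕋^d)`
(helper262)
-/

set_option autoImplicit false

namespace Pool.Agent.N262.LS

open MeasureTheory Pool.Agent.N303.LS Pool.Agent.N492.LS
open scoped ENNReal FourierTransform RealInnerProductSpace SchwartzMap ComplexConjugate

section

variable {d : ℕ}

/-- the local formula with coefficients -/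
theorem formulaAa (K : 𝓢(E d, ℂ)) {F : E d → ℂ} (hF : Integrable F) (n : ℕ) (a x : E d)
    (hx : ∀ u, K (x - u) ≠ 0 → u ∈ cu n a) (A : Finset (Fin d → ℤ)) (α : (Fin d → ℤ) → ℂ) :
    inv (fun ξ => psia K A α ξ * F ξ) x = ∫ ξ, 𝓕 (K : E d → ℂ) ξ *
      (e ⟪x, ξ⟫ * tp A (fun m => α m * bt n a (inv F) (ξ + pt m)) x) := by
  have hc := cont_inv hF
  have h1 : inv (fun ξ => psia K A α ξ * F ξ) x =
      ∑ m ∈ A, α m * inv (fun ξ => 𝓕 (K : E d → ℂ) (ξ - pt m) * F ξ) x := by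
    simp only [inv_eq]
    have hi : ∀ m ∈ A, Integrable (fun ξ : E d =>
        α m * (e ⟪x, ξ⟫ * (𝓕 (K : E d → ℂ) (ξ - pt m) * F ξ))) := by
      intro m _
      refine Integrable.const_mul ?_ _
      refine int_bdd (c := 1) ?_ (cont_er x).aestronglyMeasurable fun ξ => (norm_e _).le
      refine int_bdd (c := ∫ y, ‖K y‖) hF ?_ fun ξ => bd_fK K _
      exact ((cont_fK K).comp (continuous_id.sub continuous_const)).aestronglyMeasurable
    have h2 : ∀ m ∈ A, α m * ∫ ξ, e ⟪x, ξ⟫ * (𝓕 (K : E d → ℂ) (ξ - pt m) * F ξ) =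
        ∫ ξ, α m * (e ⟪x, ξ⟫ * (𝓕 (K : E d → ℂ) (ξ - pt m) * F ξ)) :=
      fun m _ => (integral_const_mul _ _).symm
    rw [Finset.sum_congr rfl h2, ← integral_finsetSum A hi]
    refine integral_congr_ae (Filter.Eventually.of_forall fun ξ => ?_)
    show e ⟪x, ξ⟫ * (psia K A α ξ * F ξ) =
      ∑ m ∈ A, α m * (e ⟪x, ξ⟫ * (𝓕 (K : E d → ℂ) (ξ - pt m) * F ξ))
    unfold psia
    rw [Finset.sum_mul, Finset.mul_sum]
    refine Finset.sum_congr rfl fun m _ => ?_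
    ring
  rw [h1, Finset.sum_congr rfl fun m _ => congrArg (α m * ·) (formula K hF n a x (pt m) hx)]
  have hi : ∀ m ∈ A, Integrable (fun ξ : E d =>
      α m * (𝓕 (K : E d → ℂ) ξ * (e ⟪x, ξ + pt m⟫ * bt n a (inv F) (ξ + pt m)))) := by
    intro m _
    refine Integrable.const_mul ?_ _
    have h2 : (fun ξ : E d => 𝓕 (K : E d → ℂ) ξ * (e ⟪x, ξ + pt m⟫ * bt n a (inv F) (ξ + pt m))) =
        fun ξ => (e ⟪x, ξ + pt m⟫ * bt n a (inv F) (ξ + pt m)) * 𝓕 (K : E d → ℂ) ξ := by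
      funext ξ
      ring
    rw [h2]
    refine int_bdd (c := ∫ u in cu n a, ‖inv F u‖) (int_fK K) ?_ fun ξ => ?_
    · exact (((cont_er x).comp (continuous_id.add continuous_const)).mul
        ((cont_bt n a hc).comp (continuous_id.add continuous_const))).aestronglyMeasurable
    · rw [norm_mul, norm_e, one_mul]
      exact bd_bt n a _ _
  have h3 : ∀ m ∈ A, α m * ∫ ξ, 𝓕 (K : E d → ℂ) ξ *
        (e ⟪x, ξ + pt m⟫ * bt n a (inv F) (ξ + pt m)) =
      ∫ ξ, α m * (𝓕 (K : E d → ℂ) ξ * (e ⟪x, ξ + pt m⟫ * bt n a (inv F) (ξ + pt m))) :=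
    fun m _ => (integral_const_mul _ _).symm
  rw [Finset.sum_congr rfl h3, ← integral_finsetSum A hi]
  refine integral_congr_ae (Filter.Eventually.of_forall fun ξ => ?_)
  show ∑ m ∈ A, α m * (𝓕 (K : E d → ℂ) ξ * (e ⟪x, ξ + pt m⟫ * bt n a (inv F) (ξ + pt m))) =
    𝓕 (K : E d → ℂ) ξ * (e ⟪x, ξ⟫ * tp A (fun m => α m * bt n a (inv F) (ξ + pt m)) x)
  unfold tp
  rw [Finset.mul_sum, Finset.mul_sum]
  refine Finset.sum_congr rfl fun m _ => ?_
  rw [inner_add_right, e_add]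
  ring

/-- the half-open unit cube with the corner `w` -/
def Q (w : E d) : Set (E d) := {x | ∀ i, x i - w i ∈ Set.Ico (0 : ℝ) 1}

theorem Q_meas (w : E d) : MeasurableSet (Q w) := by
  have h : Q w = ⋂ i, (fun x : E d => x i - w i) ⁻¹' Set.Ico (0 : ℝ) 1 := by
    ext x
    simp only [Q, Set.mem_iInter, Set.mem_preimage]
    exact Iff.rfl
  rw [h]
  refine MeasurableSet.iInter fun i => ?_
  have hc : Continuous fun x : E d => x i - w i := by fun_prop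
  exact hc.measurable measurableSet_Ico

/-- the corners of the unit cubes which cover a cube of side two -/
noncomputable def cor (z : E d) (k : Fin d → Fin 3) : E d :=
  WithLp.toLp 2 fun i => z i - 1 + ((k i : ℕ) : ℝ)

theorem cover (z : E d) : cu 1 z ⊆ ⋃ k : Fin d → Fin 3, Q (cor z k) := by
  classical
  intro x hx
  rw [Set.mem_iUnion]
  refine ⟨fun i => if x i - z i < 0 then 0 else if x i - z i < 1 then 1 else 2, fun i => ?_⟩
  have h1 := hx i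
  rw [abs_le] at h1
  push_cast at h1
  have e1 : ∀ k : Fin d → Fin 3, (cor z k) i = z i - 1 + ((k i : ℕ) : ℝ) := fun k => rfl
  rw [e1]
  simp only
  rw [Set.mem_Ico]
  split_ifs with h2 h3
  · simp only [Fin.val_zero]
    push_cast
    constructor <;> linarith [h1.1, h1.2]
  · simp only [Fin.val_one]
    push_cast
    push Not at h2
    constructor <;> linarith [h1.1, h1.2]
  · simp only [Fin.val_two]
    push_cast
    push Not at h2 h3
    constructor <;> linarith [h1.1, h1.2]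

theorem trans_Q (w : E d) (f : E d → ℝ≥0∞) :
    ∫⁻ x in Q w, f x = ∫⁻ y in Q (0 : E d), f (y + w) := by
  rw [← lintegral_indicator (Q_meas w), ← lintegral_indicator (Q_meas 0),
    ← lintegral_add_right_eq_self (fun x => (Q w).indicator f x) w]
  refine lintegral_congr fun y => ?_
  by_cases hy : y ∈ Q (0 : E d)
  · have h1 : y + w ∈ Q w := fun i => by simpa using hy i
    rw [Set.indicator_of_mem h1, Set.indicator_of_mem hy]
  · have h1 : y + w ∉ Q w := fun h => hy fun i => by simpa using h i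
    rw [Set.indicator_of_notMem h1, Set.indicator_of_notMem hy]

theorem lam_Q {p Λ : ℝ} {S : Finset (Fin d → ℤ)} {α : (Fin d → ℤ) → ℂ} (hL : Lam p Λ S α)
    (b : (Fin d → ℤ) → ℂ) (w : E d) :
    ∫⁻ x in Q w, ‖tp S (fun m => α m * b m) x‖ₑ ^ p ≤
      ENNReal.ofReal (Λ ^ p) * (∑ m ∈ S, ‖b m‖ₑ ^ (2 : ℝ)) ^ (p / 2) := by
  have h := hL fun m => b m * e ⟪w, pt m⟫
  have h1 : ∀ m, ‖b m * e ⟪w, pt m⟫‖ₑ = ‖b m‖ₑ := fun m => by rw [enorm_mul, enorm_e, mul_one]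
  simp only [h1] at h
  refine le_trans (le_of_eq ?_) h
  rw [trans_Q]
  have h2 : (Q (0 : E d)) = {x : E d | ∀ i, x i ∈ Set.Ico (0 : ℝ) 1} := by
    ext x
    unfold Q
    simp
  rw [h2]
  refine lintegral_congr fun y => ?_
  congr 2
  unfold tp
  refine Finset.sum_congr rfl fun m _ => ?_
  show α m * b m * e ⟪y + w, pt m⟫ = α m * (b m * e ⟪w, pt m⟫) * e ⟪y, pt m⟫
  rw [inner_add_left, e_add]
  ring

theorem lam_cu {p Λ : ℝ} {S : Finset (Fin d → ℤ)} {α : (Fin d → ℤ) → ℂ} (hL : Lam p Λ S α)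
    (b : (Fin d → ℤ) → ℂ) (z : E d) :
    ∫⁻ x in cu 1 z, ‖tp S (fun m => α m * b m) x‖ₑ ^ p ≤
      (3 : ℝ≥0∞) ^ d * (ENNReal.ofReal (Λ ^ p) * (∑ m ∈ S, ‖b m‖ₑ ^ (2 : ℝ)) ^ (p / 2)) := by
  refine (lintegral_mono_set (cover z)).trans ?_
  refine (lintegral_iUnion_le _ _).trans ?_
  rw [tsum_fintype]
  refine (Finset.sum_le_sum fun k _ => lam_Q hL b (cor z k)).trans (le_of_eq ?_)
  rw [Finset.sum_const, Finset.card_univ, nsmul_eq_mul]
  simp

theorem bes1 {n : ℕ} (hn : 1 ≤ n) (z : E d) {h : E d → ℂ} (hh : Continuous h) (ξ : E d)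
    (S : Finset (Fin d → ℤ)) :
    ∑ m ∈ S, ‖bt n z h (ξ + pt m)‖ₑ ^ (2 : ℝ) ≤
      ENNReal.ofReal ((2 * n : ℝ) ^ d) * ∫⁻ u in cu n z, ‖h u‖ₑ ^ (2 : ℝ) := by
  rw [lint_sq n z hh, ← ENNReal.ofReal_mul (by positivity)]
  simp only [en2]
  rw [← ENNReal.ofReal_sum_of_nonneg fun i _ => by positivity]
  exact ENNReal.ofReal_le_ofReal (bessel_bt hn z hh ξ S)

theorem nrg_cu (n M : ℕ) (z : E d) (h : E d → ℂ) :
    ∫⁻ u in cu n z, ‖h u‖ₑ ^ (2 : ℝ) ≤
      ENNReal.ofReal ((2 * (1 + d * (n : ℝ) ^ 2)) ^ M) * nrg M h z := by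
  unfold nrg
  rw [← lintegral_const_mul' _ _ ENNReal.ofReal_ne_top]
  refine le_trans (setLIntegral_mono' (cu_meas n z) fun u hu => ?_) (setLIntegral_le_lintegral _ _)
  have h1 : W M (z - z) ≤ (2 * (1 + d * (n : ℝ) ^ 2)) ^ M * W M (u - z) := by
    refine peetre M ?_ z
    rw [norm_sub_rev]
    exact cu_norm hu
  have h2 : W M (z - z) = 1 := by
    unfold W
    simp
  rw [h2] at h1
  have h3 : (1 : ℝ≥0∞) ≤ ENNReal.ofReal ((2 * (1 + d * (n : ℝ) ^ 2)) ^ M * W M (u - z)) := by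
    rw [← ENNReal.ofReal_one]
    exact ENNReal.ofReal_le_ofReal h1
  calc ‖h u‖ₑ ^ (2 : ℝ) = 1 * ‖h u‖ₑ ^ (2 : ℝ) := (one_mul _).symm
    _ ≤ ENNReal.ofReal ((2 * (1 + d * (n : ℝ) ^ 2)) ^ M * W M (u - z)) * ‖h u‖ₑ ^ (2 : ℝ) := by
        gcongr
    _ = _ := by
        rw [ENNReal.ofReal_mul (by positivity)]
        ring

theorem pwa (K : 𝓢(E d, ℂ)) {F : E d → ℂ} (hF : Integrable F) (n : ℕ) (a x : E d)
    (hx : ∀ u, K (x - u) ≠ 0 → u ∈ cu n a) (A : Finset (Fin d → ℤ)) (α : (Fin d → ℤ) → ℂ)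
    {p : ℝ} (hp : 1 ≤ p) :
    ‖inv (fun ξ => psia K A α ξ * F ξ) x‖ₑ ^ p ≤
      (∫⁻ ξ : E d, ‖𝓕 (K : E d → ℂ) ξ‖ₑ) ^ (p - 1) * ∫⁻ ξ : E d, ‖𝓕 (K : E d → ℂ) ξ‖ₑ *
        ‖tp A (fun m => α m * bt n a (inv F) (ξ + pt m)) x‖ₑ ^ p := by
  have hm : Measurable fun ξ : E d => tp A (fun m => α m * bt n a (inv F) (ξ + pt m)) x := by
    unfold tp
    refine Continuous.measurable ?_
    exact continuous_finsetSum _ fun m _ => (continuous_const.mul
      ((cont_bt n a (cont_inv hF)).comp (continuous_id.add continuous_const))).mul continuous_const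
  rw [formulaAa K hF n a x hx A α]
  refine le_trans (ENNReal.rpow_le_rpow (enorm_integral_le_lintegral_enorm _) (by linarith)) ?_
  have h2 : ∫⁻ ξ : E d, ‖𝓕 (K : E d → ℂ) ξ * (e ⟪x, ξ⟫ *
      tp A (fun m => α m * bt n a (inv F) (ξ + pt m)) x)‖ₑ = ∫⁻ ξ : E d, ‖𝓕 (K : E d → ℂ) ξ‖ₑ *
        ‖tp A (fun m => α m * bt n a (inv F) (ξ + pt m)) x‖ₑ := by
    refine lintegral_congr fun ξ => ?_
    rw [enorm_mul, enorm_mul, enorm_e, one_mul]
  rw [h2]
  exact Pool.Agent.N558.LS.jensen volume _ (fK_meas K) _ hm hp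

theorem tpa_cont (n : ℕ) (a : E d) {h : E d → ℂ} (hh : Continuous h) (A : Finset (Fin d → ℤ))
    (α : (Fin d → ℤ) → ℂ) :
    Continuous fun z : E d × E d => tp A (fun m => α m * bt n a h (z.2 + pt m)) z.1 := by
  unfold tp
  exact continuous_finsetSum _ fun m _ =>
    (continuous_const.mul ((cont_bt n a hh).comp (continuous_snd.add continuous_const))).mul
      ((cont_ch m).comp continuous_fst)

end

theorem t_ll : Pool.Agent.N303.LS.S_LL := by
  intro d M p hp K hKs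
  have hp0 : 0 < p := by linarith
  -- the support
  obtain ⟨r, hr⟩ : ∃ r : ℕ, ∀ y : E d, K y ≠ 0 → ∀ j, |y j| ≤ r := by
    obtain ⟨R, hR⟩ := hKs.isCompact.isBounded.exists_norm_le
    refine ⟨⌈R⌉₊, fun y hy j => ?_⟩
    have h1 := hR y (subset_tsupport _ hy)
    have h2 : |y j| ≤ ‖y‖ := PiLp.norm_apply_le y j
    exact h2.trans (h1.trans (Nat.le_ceil R))
  have hx : ∀ a : E d, ∀ x ∈ cu 1 a, ∀ u, K (x - u) ≠ 0 → u ∈ cu (r + 1) a := by
    intro a x hx u hu j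
    have h1 := hr _ hu j
    have h2 := hx j
    have h3 : (x - u) j = x j - u j := rfl
    rw [h3] at h1
    rw [abs_le] at h1 h2 ⊢
    push_cast at h2 ⊢
    constructor <;> linarith [h1.1, h1.2, h2.1, h2.2]
  obtain ⟨n, hn⟩ : ∃ n, n = r + 1 := ⟨_, rfl⟩
  rw [← hn] at hx
  have hn1 : 1 ≤ n := by omega
  obtain ⟨κ, hκ⟩ : ∃ κ : ℝ≥0∞, κ = ∫⁻ ξ : E d, ‖𝓕 (K : E d → ℂ) ξ‖ₑ := ⟨_, rfl⟩
  have hκt : κ ≠ ⊤ := by rw [hκ]; exact fK_top K
  obtain ⟨B, hB⟩ : ∃ B : ℝ, B = (2 * n : ℝ) ^ d * (2 * (1 + d * (n : ℝ) ^ 2)) ^ M := ⟨_, rfl⟩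
  have hB0 : 0 ≤ B := by rw [hB]; positivity
  obtain ⟨C', hC'⟩ : ∃ C' : ℝ≥0∞, C' = κ ^ (p - 1) * κ * 3 ^ d * ENNReal.ofReal B ^ (p / 2) :=
    ⟨_, rfl⟩
  have hC't : C' ≠ ⊤ := by
    rw [hC']
    refine ENNReal.mul_ne_top (ENNReal.mul_ne_top (ENNReal.mul_ne_top
      (ENNReal.rpow_ne_top_of_nonneg (by linarith) hκt) hκt) (by finiteness))
      (ENNReal.rpow_ne_top_of_nonneg (by linarith) ENNReal.ofReal_ne_top)
  refine ⟨C'.toReal + 1, by positivity, ?_⟩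
  intro S α Λ hΛ hL F hF z
  have hcF := cont_inv hF
  have hset : {x : E d | ∀ i, |x i - z i| ≤ 1} = cu 1 z := by
    ext x
    unfold cu
    simp
  rw [hset]
  have hN : ∀ ξ : E d, ∑ m ∈ S, ‖bt n z (inv F) (ξ + pt m)‖ₑ ^ (2 : ℝ) ≤
      ENNReal.ofReal B * nrg M (inv F) z := by
    intro ξ
    refine (bes1 hn1 z hcF ξ S).trans ?_
    rw [hB, ENNReal.ofReal_mul (by positivity), mul_assoc]
    gcongr
    exact nrg_cu n M z (inv F)
  have h1 : ∫⁻ x in cu 1 z, ‖inv (fun ξ => psia K S α ξ * F ξ) x‖ₑ ^ p ≤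
      κ ^ (p - 1) * ∫⁻ ξ : E d, ‖𝓕 (K : E d → ℂ) ξ‖ₑ *
        (3 ^ d * (ENNReal.ofReal (Λ ^ p) * (ENNReal.ofReal B * nrg M (inv F) z) ^ (p / 2))) := by
    refine (setLIntegral_mono' (cu_meas 1 z) fun x hxa =>
      pwa K hF n z x (hx z x hxa) S α (p := p) (by linarith)).trans ?_
    rw [← hκ, lintegral_const_mul' _ _ (ENNReal.rpow_ne_top_of_nonneg (by linarith) hκt)]
    refine mul_le_mul' le_rfl ?_
    rw [lintegral_lintegral_swap]
    · refine lintegral_mono fun ξ => ?_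
      rw [lintegral_const_mul' _ _ enorm_ne_top]
      gcongr
      refine (lam_cu hL (fun m => bt n z (inv F) (ξ + pt m)) z).trans ?_
      gcongr
      exact hN ξ
    · refine Measurable.aemeasurable ?_
      exact ((fK_meas K).comp measurable_snd).mul
        ((tpa_cont n z hcF S α).measurable.enorm.pow_const _)
  refine h1.trans ?_
  rw [lintegral_mul_const _ (fK_meas K), ← hκ, ENNReal.mul_rpow_of_nonneg _ _ (by linarith)]
  have h2 : κ ^ (p - 1) * (κ * (3 ^ d * (ENNReal.ofReal (Λ ^ p) *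
      (ENNReal.ofReal B ^ (p / 2) * nrg M (inv F) z ^ (p / 2))))) =
      C' * ENNReal.ofReal (Λ ^ p) * nrg M (inv F) z ^ (p / 2) := by
    rw [hC']
    ring
  rw [h2]
  have h3 : C' ≤ ENNReal.ofReal (C'.toReal + 1) := by
    calc C' = ENNReal.ofReal C'.toReal := (ENNReal.ofReal_toReal hC't).symm
      _ ≤ _ := ENNReal.ofReal_le_ofReal (by linarith)
  rw [ENNReal.ofReal_mul (by positivity)]
  gcongr

end Pool.Agent.N262.LS
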